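import Pool.Agent.helper12.DD.Spec2

/-!
# Project dw (MP_baa4d7_al), module LAM: a linear character with kernel of prime index
-/

set_option autoImplicit false

open Pool.Agent.helper49.Blk

namespace Pool.Agent.DD

theorem LAM : LAM_stmt := by
  intro B _ _ A hA q hq hcard
  have hfact : Fact q.Prime := ⟨hq⟩
  have hpos : 0 < Nat.card A := Nat.card_pos
  have hindex : Nat.card (B ⧸ A) = q := by
    have h1 : Nat.card B = Nat.card (B ⧸ A) * Nat.card A := A.card_eq_card_quotient_mul_card_subgroup
    rw [hcard] at h1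
    exact (Nat.eq_of_mul_eq_mul_right hpos h1).symm
  have hcyc : IsCyclic (B ⧸ A) := isCyclic_of_prime_card hindex
  let _ : CommGroup (B ⧸ A) := IsCyclic.commGroup
  have hnt : Nontrivial (B ⧸ A) := by
    rw [← Finite.one_lt_card_iff_nontrivial, hindex]
    exact hq.one_lt
  obtain ⟨a, ha⟩ := exists_ne (1 : B ⧸ A)
  have hne : NeZero ((Monoid.exponent (B ⧸ A) : ℕ) : ℂ) := by
    refine ⟨?_⟩
    rw [Nat.cast_ne_zero]
    exact Monoid.exponent_ne_zero_of_finite
  have hex : NeZero (Monoid.exponent (B ⧸ A)) := ⟨Monoid.exponent_ne_zero_of_finite⟩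
  obtain ⟨φ, hφ⟩ := CommGroup.exists_apply_ne_one_of_hasEnoughRootsOfUnity (B ⧸ A) ℂ ha
  have hker : φ.ker = ⊥ := by
    have h1 : φ.ker ≠ ⊤ := by
      intro h
      apply hφ
      have : a ∈ φ.ker := by
        rw [h]
        trivial
      exact this
    have h2 : (Nat.card (B ⧸ A)).Prime := by
      rw [hindex]
      exact hq
    have h3 : Nat.card φ.ker ∣ q := by
      rw [← hindex]
      exact Subgroup.card_subgroup_dvd_card _
    rcases (Nat.dvd_prime hq).1 h3 with h | h
    · exact Subgroup.eq_bot_of_card_eq _ h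
    · exfalso
      apply h1
      apply Subgroup.eq_top_of_card_eq
      rw [h, hindex]
  refine ⟨φ.comp (QuotientGroup.mk' A), ?_, ?_⟩
  · intro b
    have h1 : (φ.comp (QuotientGroup.mk' A)) b = 1 ↔ (QuotientGroup.mk' A b) ∈ φ.ker := Iff.rfl
    rw [h1, hker, Subgroup.mem_bot]
    exact QuotientGroup.eq_one_iff b
  · intro b
    have h1 : (QuotientGroup.mk' A b) ^ q = 1 := by
      rw [← hindex]
      exact pow_card_eq_one'
    rw [← map_pow, MonoidHom.comp_apply, map_pow, h1, map_one]

end Pool.Agent.DD
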